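import Pool.Agent.R479.DB.Lim

/-!
# Values of expanding sequences of functions avoid thin sets (helper891)
-/

set_option autoImplicit false

namespace Pool.Agent.N891.GM

open Finset Classical

/-- `O_ε (X ^ (s + ε))` elements of `S` are at most `X` -/
def ThinR (S : Set ℝ) (s : ℝ) : Prop :=
  ∀ ε : ℝ, 0 < ε → ∃ C : ℝ, ∀ X : ℝ, 1 ≤ X →
    {x | x ∈ S ∧ x ≤ X}.Finite ∧ ({x | x ∈ S ∧ x ≤ X}.ncard : ℝ) ≤ C * X ^ (s + ε)

/-- `O_ε (X ^ (ρ + ε))` of the numbers `A n` are at most `X` -/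
def Order (A : ℕ → ℝ) (ρ : ℝ) : Prop :=
  ∀ ε : ℝ, 0 < ε → ∃ C : ℝ, ∀ X : ℝ, 1 ≤ X →
    {n | A n ≤ X}.Finite ∧ ({n | A n ≤ X}.ncard : ℝ) ≤ C * X ^ (ρ + ε)

theorem thin_countable {S : Set ℝ} {s : ℝ} (hS : ThinR S s) : S.Countable := by
  obtain ⟨C, hC⟩ := hS 1 one_pos
  have : S ⊆ ⋃ k : ℕ, {x | x ∈ S ∧ x ≤ (k : ℝ) + 1} := by
    intro x hx
    obtain ⟨k, hk⟩ := exists_nat_ge x
    exact Set.mem_iUnion.2 ⟨k, hx, by linarith⟩
  refine (Set.countable_iUnion fun k => ?_).mono this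
  exact (hC (k + 1) (by have : (0 : ℝ) ≤ k := Nat.cast_nonneg k; linarith)).1.countable

theorem dim_core {E : Type} [MetricSpace E] {S : Set ℝ} {s ρ κ l : ℝ} (hs : 0 ≤ s) (hρ : 0 ≤ ρ)
    (hκ1 : κ < 1) (hl : 0 ≤ l) (hκl : κ ≤ l) (hS : ThinR S s) {A : ℕ → ℝ} (hA : Order A ρ) {J : Set E}
    {f : ℕ → E → ℝ} {B c : ℝ} (hc : 0 < c) (K : ℕ)
    (hexp : ∀ n, 1 ≤ A n → ∀ x ∈ J, ∀ y ∈ J, c * A n * dist x y ≤ |f n x - f n y|)
    (hbd : ∀ n, 1 ≤ A n → ∀ x ∈ J, f n x ≤ B * A n ^ l) :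
    dimH {x | x ∈ J ∧ {n : ℕ | ∃ w ∈ S, |w - f n x| ≤ K * A n ^ κ}.Infinite} ≤
      ENNReal.ofReal ((ρ + l * s) / (1 - κ)) := by
  apply ENNReal.le_of_forall_pos_le_add
  intro ε hε _
  have hε' : (0 : ℝ) < ε := by exact_mod_cast hε
  have h1κ : 0 < 1 - κ := by linarith
  rw [← ENNReal.ofReal_coe_nnreal (p := ε), ← ENNReal.ofReal_add (by positivity) hε'.le]
  set D : ℝ := (ρ + l * s) / (1 - κ) + ε with hD
  have hD0 : 0 < D := by positivity
  have hDκ : (1 - κ) * D = ρ + l * s + ε * (1 - κ) := by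
    rw [hD]
    field_simp
  set e : ℝ := ε * (1 - κ) / (2 * (1 + l)) with he
  have he0 : 0 < e := by positivity
  have hel : (1 + l) * e = ε * (1 - κ) / 2 := by
    rw [he]
    field_simp
  obtain ⟨C₁, hC₁⟩ := hA e he0
  obtain ⟨C₂, hC₂⟩ := hS e he0
  set M : ℝ := |B| + K + 1 with hM
  have hM1 : 1 ≤ M := by
    rw [hM]
    have := abs_nonneg B
    have : (0 : ℝ) ≤ K := Nat.cast_nonneg K
    linarith
  set ι : Type := {t : ℕ × ℝ // t.2 ∈ S ∧ 1 ≤ A t.1 ∧ t.2 ≤ M * A t.1 ^ l} with hι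
  have hcount : Countable ι := by
    have h1 : ((Set.univ : Set ℕ) ×ˢ S).Countable := Set.countable_univ.prod (thin_countable hS)
    have h2 : {t : ℕ × ℝ | t.2 ∈ S ∧ 1 ≤ A t.1 ∧ t.2 ≤ M * A t.1 ^ l} ⊆ (Set.univ : Set ℕ) ×ˢ S :=
      fun t ht => ⟨Set.mem_univ _, ht.1⟩
    exact (h1.mono h2).to_subtype
  have hpos : ∀ t : ι, (1 : ℝ) ≤ A t.1.1 := fun t => t.2.2.1
  set U : ι → Set E := fun t => {x | x ∈ J ∧ |t.1.2 - f t.1.1 x| ≤ K * A t.1.1 ^ κ} with hU
  have h1 := Pool.Agent.R479.DB.dimH_limsup U (fun t => (2 * K + 1) / c * A t.1.1 ^ (-(1 - κ))) (fun t => by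
      have := hpos t
      positivity) (fun t => by
        have ht := hpos t
        have ht0 : (0 : ℝ) < A t.1.1 := by linarith
        refine Metric.ediam_le fun x hx y hy => ?_
        rw [edist_dist]
        apply ENNReal.ofReal_le_ofReal
        have a1 := hx.2
        have a2 := hy.2
        have a3 : |f t.1.1 x - f t.1.1 y| ≤ 2 * K * A t.1.1 ^ κ := by
          have : f t.1.1 x - f t.1.1 y = (t.1.2 - f t.1.1 y) - (t.1.2 - f t.1.1 x) := by ring
          rw [this]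
          refine (abs_sub _ _).trans ?_
          linarith
        have a4 := (hexp t.1.1 ht x hx.1 y hy.1).trans a3
        have a5 : A t.1.1 ^ (-(1 - κ)) = A t.1.1 ^ κ / A t.1.1 := by
          rw [show -(1 - κ) = κ - 1 by ring, Real.rpow_sub_one ht0.ne']
        rw [a5]
        have a6 : dist x y ≤ 2 * K * A t.1.1 ^ κ / (c * A t.1.1) := by
          rw [le_div_iff₀ (by positivity)]
          linarith
        refine a6.trans ?_
        have a7 : 0 ≤ A t.1.1 ^ κ / A t.1.1 := by positivity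
        have a8 : 2 * K * A t.1.1 ^ κ / (c * A t.1.1) = 2 * K / c * (A t.1.1 ^ κ / A t.1.1) := by
          field_simp
        rw [a8]
        apply mul_le_mul_of_nonneg_right _ a7
        gcongr
        linarith) hD0 (by
      have h2 := Pool.Agent.R479.DA.summable_heights (ι := ι) (fun t => A t.1.1) hpos
        (s := ρ + l * s + (1 + l) * e) (p := (1 - κ) * D) (C := |C₁| * (|C₂| * M ^ (s + e)))
        (by rw [hDκ, hel]; nlinarith [mul_pos hε' h1κ]) (by positivity) (by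
          intro X hX
          have hX0 : (0 : ℝ) < X := by linarith
          have hXl : 1 ≤ X ^ l := Real.one_le_rpow hX hl
          have hMX : 1 ≤ M * X ^ l := one_le_mul_of_one_le_of_one_le hM1 hXl
          obtain ⟨f1, n1⟩ := hC₁ X hX
          obtain ⟨f2, n2⟩ := hC₂ (M * X ^ l) hMX
          have hmaps : Set.MapsTo (Subtype.val : ι → ℕ × ℝ) {t | A t.1.1 ≤ X}
              ({n | A n ≤ X} ×ˢ {x | x ∈ S ∧ x ≤ M * X ^ l}) := by
            intro t ht
            refine ⟨ht, t.2.1, t.2.2.2.trans ?_⟩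
            have h3 : A t.1.1 ^ l ≤ X ^ l := Real.rpow_le_rpow (by linarith [hpos t]) ht hl
            nlinarith
          have hinj : Set.InjOn (Subtype.val : ι → ℕ × ℝ) {t | A t.1.1 ≤ X} :=
            Subtype.val_injective.injOn
          have hfin : {t : ι | A t.1.1 ≤ X}.Finite := (f1.prod f2).of_injOn hmaps hinj
          refine ⟨hfin, ?_⟩
          have h3 := Set.ncard_le_ncard_of_injOn _ hmaps hinj (f1.prod f2)
          rw [Set.ncard_prod] at h3
          calc (({t : ι | A t.1.1 ≤ X}.ncard : ℕ) : ℝ)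
              ≤ ({n | A n ≤ X}.ncard : ℝ) * ({x | x ∈ S ∧ x ≤ M * X ^ l}.ncard : ℝ) := by exact_mod_cast h3
            _ ≤ (|C₁| * X ^ (ρ + e)) * (|C₂| * (M * X ^ l) ^ (s + e)) := by
                apply mul_le_mul (n1.trans ?_) (n2.trans ?_) (Nat.cast_nonneg _) (by positivity)
                · exact mul_le_mul_of_nonneg_right (le_abs_self _) (by positivity)
                · exact mul_le_mul_of_nonneg_right (le_abs_self _) (by positivity)
            _ = |C₁| * (|C₂| * M ^ (s + e)) * X ^ (ρ + l * s + (1 + l) * e) := by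
                rw [Real.mul_rpow (by linarith) (by positivity), ← Real.rpow_mul hX0.le,
                  show ρ + l * s + (1 + l) * e = (ρ + e) + l * (s + e) by ring,
                  Real.rpow_add hX0 (ρ + e) (l * (s + e))]
                ring)
      refine (h2.mul_left (((2 * K + 1) / c : ℝ) ^ D)).congr fun t => ?_
      have ht := hpos t
      have ht0 : (0 : ℝ) < A t.1.1 := by linarith
      rw [Real.mul_rpow (by positivity) (by positivity), ← Real.rpow_mul ht0.le]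
      congr 2
      ring)
  refine le_trans (dimH_mono ?_) h1
  rintro x ⟨hxJ, hx⟩
  simp only [Set.mem_ofPred_eq]
  intro hfin
  apply hx
  have hf2 := hfin.image (fun t : ι => t.1.1)
  refine (hf2.union (hC₁ 1 le_rfl).1).subset ?_
  rintro n ⟨w, hwS, hw⟩
  by_cases hn : A n ≤ 1
  · right
    exact hn
  left
  push Not at hn
  refine ⟨⟨(n, w), hwS, hn.le, ?_⟩, ⟨hxJ, hw⟩, rfl⟩
  have e1 := (abs_le.1 hw).2
  have e2 := hbd n hn.le x hxJ
  have e3 : A n ^ κ ≤ A n ^ l := Real.rpow_le_rpow_of_exponent_le hn.le hκl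
  have e4 : 0 ≤ A n ^ l := by positivity
  have e5 : B * A n ^ l ≤ |B| * A n ^ l := mul_le_mul_of_nonneg_right (le_abs_self _) e4
  have e6 : (K : ℝ) * A n ^ κ ≤ K * A n ^ l := mul_le_mul_of_nonneg_left e3 (Nat.cast_nonneg _)
  simp only
  rw [hM]
  nlinarith

/-- **General theorem.** Let `O_ε (X ^ (s + ε))` elements of `S` be at most `X`, and let the functions `f n` on the
metric space `J` satisfy `|f n x - f n y| ≥ c A_n d(x, y)` and `f n ≤ B A_n ^ l`, where `O_ε (X ^ (ρ + ε))` of the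
numbers `A n` are at most `X`. Outside a set of dimension at most `(ρ + l s) / (1 - κ)`, for all `K` and all but
finitely many `n`, no element of `S` has distance at most `K A_n ^ κ` from `f n x`. -/
theorem avoid {E : Type} [MetricSpace E] {S : Set ℝ} {s ρ κ l : ℝ} (hs : 0 ≤ s) (hρ : 0 ≤ ρ)
    (hκ1 : κ < 1) (hl : 0 ≤ l) (hκl : κ ≤ l) (hS : ThinR S s) {A : ℕ → ℝ} (hA : Order A ρ) {J : Set E}
    {f : ℕ → E → ℝ} {B c : ℝ} (hc : 0 < c)
    (hexp : ∀ n, 1 ≤ A n → ∀ x ∈ J, ∀ y ∈ J, c * A n * dist x y ≤ |f n x - f n y|)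
    (hbd : ∀ n, 1 ≤ A n → ∀ x ∈ J, f n x ≤ B * A n ^ l) :
    ∃ Z : Set E, dimH Z ≤ ENNReal.ofReal ((ρ + l * s) / (1 - κ)) ∧ ∀ x ∈ J, x ∉ Z → ∀ K : ℝ,
      ∃ N : ℕ, ∀ n : ℕ, N ≤ n → ∀ w ∈ S, ¬ |w - f n x| ≤ K * A n ^ κ := by
  refine ⟨⋃ K : ℕ, {x | x ∈ J ∧ {n : ℕ | ∃ w ∈ S, |w - f n x| ≤ K * A n ^ κ}.Infinite}, ?_,
    fun x hxJ hx K => ?_⟩
  · rw [dimH_iUnion]
    exact iSup_le fun K => dim_core hs hρ hκ1 hl hκl hS hA hc K hexp hbd
  · obtain ⟨K', hK'⟩ := exists_nat_ge K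
    have hfin : {n : ℕ | ∃ w ∈ S, |w - f n x| ≤ K' * A n ^ κ}.Finite := by
      by_contra hcon
      exact hx (Set.mem_iUnion.2 ⟨K', hxJ, hcon⟩)
    obtain ⟨C₁, hC₁⟩ := hA 1 one_pos
    obtain ⟨b, hb⟩ := (hfin.union (hC₁ 1 le_rfl).1).bddAbove
    refine ⟨b + 1, fun n hn w hw hcon => ?_⟩
    have : n ≤ b := by
      by_cases hn1 : A n ≤ 1
      · exact hb (Or.inr hn1)
      · apply hb
        left
        push Not at hn1
        refine ⟨w, hw, hcon.trans ?_⟩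
        gcongr
    omega

end Pool.Agent.N891.GM
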