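import Pool.Agent.N891.GM.Gen

/-!
# Multiples of generic vectors avoid thin sets (helper891)
-/

set_option autoImplicit false

namespace Pool.Agent.N891.GM

open Finset Classical

/-- `O_ε (T ^ (s + ε))` elements of `S` have coordinates of absolute value at most `T` -/
def ThinV {k : ℕ} (S : Set (Fin k → ℤ)) (s : ℝ) : Prop :=
  ∀ ε : ℝ, 0 < ε → ∃ C : ℝ, ∀ T : ℕ, 1 ≤ T →
    ({w | w ∈ S ∧ ∀ i, |w i| ≤ (T : ℤ)}.ncard : ℝ) ≤ C * (T : ℝ) ^ (s + ε)

theorem box_finite {k : ℕ} (T : ℕ) : {w : Fin k → ℤ | ∀ i, |w i| ≤ (T : ℤ)}.Finite := by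
  refine (Set.Finite.pi' fun _ : Fin k => Set.finite_Icc (-(T : ℤ)) T).subset fun w hw i => ?_
  exact abs_le.1 (hw i)

theorem vec_core {k : ℕ} {S : Set (Fin k → ℤ)} {s ρ κ : ℝ} (hs : 0 ≤ s) (hρ : 0 ≤ ρ) (hκ1 : κ < 1)
    (hS : ThinV S s) {a : ℕ → ℝ} (ha : OfOrder a ρ) (R K : ℕ) :
    dimH {x : Fin k → ℝ | ‖x‖ ≤ R ∧ {n : ℕ | ∃ w ∈ S, ∀ i, |(w i : ℝ) - a n * x i| ≤ K * |a n| ^ κ}.Infinite} ≤
      ENNReal.ofReal ((s + ρ) / (1 - κ)) := by
  apply ENNReal.le_of_forall_pos_le_add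
  intro ε hε _
  have hε' : (0 : ℝ) < ε := by exact_mod_cast hε
  have h1κ : 0 < 1 - κ := by linarith
  rw [← ENNReal.ofReal_coe_nnreal (p := ε), ← ENNReal.ofReal_add (by positivity) hε'.le]
  set D : ℝ := (s + ρ) / (1 - κ) + ε with hD
  have hD0 : 0 < D := by positivity
  have hDκ : (1 - κ) * D = s + ρ + ε * (1 - κ) := by
    rw [hD]
    field_simp
  set e : ℝ := ε * (1 - κ) / 4 with he
  have he0 : 0 < e := by positivity
  obtain ⟨C₁, hC₁⟩ := ha e he0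
  obtain ⟨C₂, hC₂⟩ := hS e he0
  set M : ℕ := R + K + 1 with hM
  have hM1 : (1 : ℝ) ≤ M := by
    rw [hM]
    push_cast
    have h1 : (0 : ℝ) ≤ R := Nat.cast_nonneg R
    have h2 : (0 : ℝ) ≤ K := Nat.cast_nonneg K
    linarith
  set ι : Type := {t : ℕ × (Fin k → ℤ) // t.2 ∈ S ∧ 1 ≤ |a t.1| ∧ ∀ i, |(t.2 i : ℝ)| ≤ M * |a t.1|} with hι
  have hpos : ∀ t : ι, (1 : ℝ) ≤ |a t.1.1| := fun t => t.2.2.1
  set U : ι → Set (Fin k → ℝ) := fun t => {x | ∀ i, |(t.1.2 i : ℝ) - a t.1.1 * x i| ≤ K * |a t.1.1| ^ κ} with hU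
  have h1 := Pool.Agent.R479.DB.dimH_limsup U (fun t => (2 * K + 1) * |a t.1.1| ^ (-(1 - κ))) (fun t => by
      have := hpos t
      positivity) (fun t => by
        have ht := hpos t
        have ht0 : (0 : ℝ) < |a t.1.1| := by linarith
        refine Metric.ediam_le fun x hx y hy => ?_
        rw [edist_dist]
        apply ENNReal.ofReal_le_ofReal
        rw [dist_pi_le_iff (by positivity)]
        intro i
        rw [Real.dist_eq]
        have a1 := hx i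
        have a2 := hy i
        have a3 : |a t.1.1| * |x i - y i| ≤ 2 * K * |a t.1.1| ^ κ := by
          rw [← abs_mul]
          have : a t.1.1 * (x i - y i) = ((t.1.2 i : ℝ) - a t.1.1 * y i) - ((t.1.2 i : ℝ) - a t.1.1 * x i) := by
            ring
          rw [this]
          refine (abs_sub _ _).trans ?_
          linarith
        have a5 : |a t.1.1| ^ (-(1 - κ)) = |a t.1.1| ^ κ / |a t.1.1| := by
          rw [show -(1 - κ) = κ - 1 by ring, Real.rpow_sub_one ht0.ne']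
        rw [a5]
        have a6 : |x i - y i| ≤ 2 * K * |a t.1.1| ^ κ / |a t.1.1| := by
          rw [le_div_iff₀ ht0]
          linarith
        refine a6.trans ?_
        have a7 : 0 ≤ |a t.1.1| ^ κ / |a t.1.1| := by positivity
        rw [mul_div_assoc]
        nlinarith) hD0 (by
      have h2 := Pool.Agent.R479.DA.summable_heights (ι := ι) (fun t => |a t.1.1|) hpos
        (s := s + ρ + 2 * e) (p := (1 - κ) * D) (C := |C₁| * (|C₂| * M ^ (s + e)))
        (by rw [hDκ, he]; nlinarith [mul_pos hε' h1κ]) (by positivity) (by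
          intro X hX
          have hX0 : (0 : ℝ) < X := by linarith
          have hMX : 1 ≤ M * X := one_le_mul_of_one_le_of_one_le hM1 hX
          have hT1 : 1 ≤ ⌊(M : ℝ) * X⌋₊ := Nat.le_floor (by exact_mod_cast hMX)
          have hTf : (⌊(M : ℝ) * X⌋₊ : ℝ) ≤ M * X := Nat.floor_le (by linarith)
          obtain ⟨f1, n1⟩ := hC₁ X hX
          have n2 := hC₂ ⌊(M : ℝ) * X⌋₊ hT1
          have f2 : {w | w ∈ S ∧ ∀ i, |w i| ≤ ((⌊(M : ℝ) * X⌋₊ : ℕ) : ℤ)}.Finite :=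
            (box_finite _).subset fun w hw => hw.2
          have hmaps : Set.MapsTo (Subtype.val : ι → ℕ × (Fin k → ℤ)) {t | |a t.1.1| ≤ X}
              ({n | |a n| ≤ X} ×ˢ {w | w ∈ S ∧ ∀ i, |w i| ≤ ((⌊(M : ℝ) * X⌋₊ : ℕ) : ℤ)}) := by
            intro t ht
            refine ⟨ht, t.2.1, fun i => ?_⟩
            have h3 := t.2.2.2 i
            have h4 : ((t.1.2 i).natAbs : ℝ) ≤ M * X := by
              rw [Nat.cast_natAbs, Int.cast_abs]
              refine h3.trans ?_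
              have : |a t.1.1| ≤ X := ht
              nlinarith
            have h5 := Nat.le_floor h4
            rw [Int.abs_eq_natAbs]
            exact_mod_cast h5
          have hinj : Set.InjOn (Subtype.val : ι → ℕ × (Fin k → ℤ)) {t | |a t.1.1| ≤ X} :=
            Subtype.val_injective.injOn
          have hfin : {t : ι | |a t.1.1| ≤ X}.Finite := (f1.prod f2).of_injOn hmaps hinj
          refine ⟨hfin, ?_⟩
          have h3 := Set.ncard_le_ncard_of_injOn _ hmaps hinj (f1.prod f2)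
          rw [Set.ncard_prod] at h3
          calc (({t : ι | |a t.1.1| ≤ X}.ncard : ℕ) : ℝ)
              ≤ ({n | |a n| ≤ X}.ncard : ℝ) *
                ({w | w ∈ S ∧ ∀ i, |w i| ≤ ((⌊(M : ℝ) * X⌋₊ : ℕ) : ℤ)}.ncard : ℝ) := by exact_mod_cast h3
            _ ≤ (|C₁| * X ^ (ρ + e)) * (|C₂| * (M * X) ^ (s + e)) := by
                apply mul_le_mul (n1.trans ?_) (n2.trans ?_) (Nat.cast_nonneg _) (by positivity)
                · exact mul_le_mul_of_nonneg_right (le_abs_self _) (by positivity)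
                · calc C₂ * (⌊(M : ℝ) * X⌋₊ : ℝ) ^ (s + e) ≤ |C₂| * (⌊(M : ℝ) * X⌋₊ : ℝ) ^ (s + e) :=
                        mul_le_mul_of_nonneg_right (le_abs_self _) (by positivity)
                    _ ≤ |C₂| * (M * X) ^ (s + e) := by gcongr
            _ = |C₁| * (|C₂| * M ^ (s + e)) * X ^ (s + ρ + 2 * e) := by
                rw [Real.mul_rpow (by positivity) (by positivity),
                  show s + ρ + 2 * e = (ρ + e) + (s + e) by ring, Real.rpow_add hX0 (ρ + e) (s + e)]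
                ring)
      refine (h2.mul_left ((2 * K + 1 : ℝ) ^ D)).congr fun t => ?_
      have ht := hpos t
      have ht0 : (0 : ℝ) < |a t.1.1| := by linarith
      rw [Real.mul_rpow (by positivity) (by positivity), ← Real.rpow_mul ht0.le]
      congr 2
      ring)
  refine le_trans (dimH_mono ?_) h1
  rintro x ⟨hxR, hx⟩
  simp only [Set.mem_ofPred_eq]
  intro hfin
  apply hx
  have hf2 := hfin.image (fun t : ι => t.1.1)
  refine (hf2.union (hC₁ 1 le_rfl).1).subset ?_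
  rintro n ⟨w, hwS, hw⟩
  by_cases hn : |a n| ≤ 1
  · right
    exact hn
  left
  push Not at hn
  refine ⟨⟨(n, w), hwS, hn.le, fun i => ?_⟩, hw, rfl⟩
  have e1 := hw i
  have e2 : |x i| ≤ R := (norm_le_pi_norm x i).trans hxR
  have e3 : |a n| ^ κ ≤ |a n| := by
    nth_rewrite 2 [← Real.rpow_one |a n|]
    exact Real.rpow_le_rpow_of_exponent_le hn.le hκ1.le
  have e4 : (w i : ℝ) = ((w i : ℝ) - a n * x i) + a n * x i := by ring
  have e5 : |(w i : ℝ)| ≤ K * |a n| ^ κ + |a n| * R := by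
    rw [e4]
    refine (abs_add_le _ _).trans (add_le_add e1 ?_)
    rw [abs_mul]
    exact mul_le_mul_of_nonneg_left e2 (abs_nonneg _)
  have e6 : (K : ℝ) * |a n| ^ κ ≤ K * |a n| := mul_le_mul_of_nonneg_left e3 (Nat.cast_nonneg _)
  simp only
  rw [hM]
  push_cast
  nlinarith

/-- **Multiples of generic vectors.** Let `S` be a set of integral vectors with `O_ε (T ^ (s + ε))` elements with
coordinates of absolute value at most `T`, and let the sequence `a` be of order at most `ρ`. For all real vectors `x`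
outside a set of Hausdorff dimension at most `(s + ρ) / (1 - κ)` and all `K` the set `S` has no element within
`K |a_n| ^ κ` of `a_n x`, if `n` is large. -/
theorem vec {k : ℕ} {S : Set (Fin k → ℤ)} {s ρ κ : ℝ} (hs : 0 ≤ s) (hρ : 0 ≤ ρ) (hκ1 : κ < 1)
    (hS : ThinV S s) {a : ℕ → ℝ} (ha : OfOrder a ρ) :
    ∃ Z : Set (Fin k → ℝ), dimH Z ≤ ENNReal.ofReal ((s + ρ) / (1 - κ)) ∧ ∀ x, x ∉ Z → ∀ K : ℝ,
      ∃ N : ℕ, ∀ n : ℕ, N ≤ n → ∀ w ∈ S, ¬ ∀ i, |(w i : ℝ) - a n * x i| ≤ K * |a n| ^ κ := by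
  refine ⟨⋃ R : ℕ, ⋃ K : ℕ, {x : Fin k → ℝ | ‖x‖ ≤ R ∧
    {n : ℕ | ∃ w ∈ S, ∀ i, |(w i : ℝ) - a n * x i| ≤ K * |a n| ^ κ}.Infinite}, ?_, fun x hx K => ?_⟩
  · rw [dimH_iUnion]
    refine iSup_le fun R => ?_
    rw [dimH_iUnion]
    exact iSup_le fun K => vec_core hs hρ hκ1 hS ha R K
  · obtain ⟨R, hR⟩ := exists_nat_ge ‖x‖
    obtain ⟨K', hK'⟩ := exists_nat_ge K
    have hfin : {n : ℕ | ∃ w ∈ S, ∀ i, |(w i : ℝ) - a n * x i| ≤ K' * |a n| ^ κ}.Finite := by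
      by_contra hcon
      exact hx (Set.mem_iUnion.2 ⟨R, Set.mem_iUnion.2 ⟨K', hR, hcon⟩⟩)
    obtain ⟨b, hb⟩ := hfin.bddAbove
    refine ⟨b + 1, fun n hn w hw hcon => ?_⟩
    have : n ≤ b := hb ⟨w, hw, fun i => (hcon i).trans (by gcongr)⟩
    omega

/-- the same, if the count is given without `ε` -/
theorem vec_of_count {k : ℕ} (S : Set (Fin k → ℤ)) {s ρ κ C : ℝ} (hs : 0 ≤ s) (hρ : 0 ≤ ρ) (hκ1 : κ < 1)
    (hS : ∀ T : ℕ, 1 ≤ T → ({w | (∀ i, |w i| ≤ (T : ℤ)) ∧ w ∈ S}.ncard : ℝ) ≤ C * (T : ℝ) ^ s)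
    {a : ℕ → ℝ} (ha : OfOrder a ρ) :
    ∃ Z : Set (Fin k → ℝ), dimH Z ≤ ENNReal.ofReal ((s + ρ) / (1 - κ)) ∧ ∀ x, x ∉ Z → ∀ K : ℝ,
      ∃ N : ℕ, ∀ n : ℕ, N ≤ n → ∀ w ∈ S, ¬ ∀ i, |(w i : ℝ) - a n * x i| ≤ K * |a n| ^ κ := by
  refine vec hs hρ hκ1 (fun ε hε => ⟨|C|, fun T hT => ?_⟩) ha
  have hT1 : (1 : ℝ) ≤ T := by exact_mod_cast hT
  have e : {w : Fin k → ℤ | w ∈ S ∧ ∀ i, |w i| ≤ (T : ℤ)} = {w | (∀ i, |w i| ≤ (T : ℤ)) ∧ w ∈ S} := by
    ext w
    exact and_comm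
  rw [e]
  refine (hS T hT).trans ?_
  calc C * (T : ℝ) ^ s ≤ |C| * (T : ℝ) ^ s := mul_le_mul_of_nonneg_right (le_abs_self C) (by positivity)
    _ ≤ |C| * (T : ℝ) ^ (s + ε) :=
        mul_le_mul_of_nonneg_left (Real.rpow_le_rpow_of_exponent_le hT1 (by linarith)) (abs_nonneg C)

end Pool.Agent.N891.GM
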