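import Pool.Agent.N891.GM.Core

/-!
# Generic multiples, generic powers and generic exponents avoid thin sets (helper891)
-/

set_option autoImplicit false

namespace Pool.Agent.N891.GM

open Finset Classical Filter Topology

/-- the set `S` has `O_ε (X ^ (s + ε))` elements of height at most `X` -/
def Thin {T : Type*} (S : Set T) (h : T → ℝ) (s : ℝ) : Prop :=
  ∀ ε : ℝ, 0 < ε → ∃ C : ℝ, ∀ X : ℝ, 1 ≤ X →
    {t | t ∈ S ∧ h t ≤ X}.Finite ∧ ({t | t ∈ S ∧ h t ≤ X}.ncard : ℝ) ≤ C * X ^ (s + ε)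

theorem thin_image {T : Type*} {S : Set T} {h : T → ℝ} {s : ℝ} (hS : Thin S h s) : ThinR (h '' S) s := by
  intro ε hε
  obtain ⟨C, hC⟩ := hS ε hε
  refine ⟨C, fun X hX => ?_⟩
  have e : {x | x ∈ h '' S ∧ x ≤ X} = h '' {t | t ∈ S ∧ h t ≤ X} := by
    ext x
    constructor
    · rintro ⟨⟨t, ht, rfl⟩, hx⟩
      exact ⟨t, ⟨ht, hx⟩, rfl⟩
    · rintro ⟨t, ⟨ht, hx⟩, rfl⟩
      exact ⟨⟨t, ht, rfl⟩, hx⟩
  rw [e]
  obtain ⟨h1, h2⟩ := hC X hX
  refine ⟨h1.image h, le_trans ?_ h2⟩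
  exact_mod_cast Set.ncard_image_le h1

/-- **Multiples.** -/
theorem mult {S : Set ℝ} {s ρ κ : ℝ} (hs : 0 ≤ s) (hρ : 0 ≤ ρ) (hκ1 : κ < 1) (hS : ThinR S s)
    {a : ℕ → ℝ} (ha : Order (fun n => |a n|) ρ) :
    ∃ Z : Set ℝ, dimH Z ≤ ENNReal.ofReal ((ρ + s) / (1 - κ)) ∧ ∀ α : ℝ, α ∉ Z → ∀ K : ℝ,
      ∃ N : ℕ, ∀ n : ℕ, N ≤ n → ∀ w ∈ S, ¬ |w - a n * α| ≤ K * |a n| ^ κ := by
  have key : ∀ R : ℕ, ∃ Z : Set ℝ, dimH Z ≤ ENNReal.ofReal ((ρ + s) / (1 - κ)) ∧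
      ∀ α ∈ {α : ℝ | |α| ≤ R}, α ∉ Z → ∀ K : ℝ,
      ∃ N : ℕ, ∀ n : ℕ, N ≤ n → ∀ w ∈ S, ¬ |w - a n * α| ≤ K * |a n| ^ κ := by
    intro R
    have h := avoid (E := ℝ) hs hρ hκ1 (l := 1) zero_le_one hκ1.le hS ha (J := {α : ℝ | |α| ≤ R})
      (f := fun n α => a n * α) (B := R) (c := 1) one_pos
      (fun n _ x _ y _ => by
        rw [one_mul, Real.dist_eq, ← mul_sub, abs_mul])
      (fun n _ x hx => by
        rw [Real.rpow_one]
        calc a n * x ≤ |a n * x| := le_abs_self _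
          _ = |a n| * |x| := abs_mul _ _
          _ ≤ |a n| * R := mul_le_mul_of_nonneg_left hx (abs_nonneg _)
          _ = R * |a n| := mul_comm _ _)
    rw [one_mul] at h
    exact h
  choose Z hZ1 hZ2 using key
  refine ⟨⋃ R, Z R, ?_, fun α hα K => ?_⟩
  · rw [dimH_iUnion]
    exact iSup_le hZ1
  · obtain ⟨R, hR⟩ := exists_nat_ge |α|
    exact hZ2 R α hR (fun h => hα (Set.mem_iUnion.2 ⟨R, h⟩)) K

/-- the order of `b ^ x`, with the small `b` removed -/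
theorem order_pow {b : ℕ → ℝ} {ρ x : ℝ} (hρ : 0 ≤ ρ) (hx : 0 < x) (hb : Order b ρ) :
    Order (fun n => if 2 ≤ b n then b n ^ x else 0) (ρ / x) := by
  intro ε hε
  obtain ⟨C, hC⟩ := hb (ε * x) (by positivity)
  refine ⟨|C| * 2 ^ (ρ + ε * x), fun X hX => ?_⟩
  have hX0 : (0 : ℝ) < X := by linarith
  have hXx : 1 ≤ X ^ (1 / x) := Real.one_le_rpow hX (by positivity)
  obtain ⟨h1, h2⟩ := hC (2 * X ^ (1 / x)) (by linarith)
  have hsub : {n | (if 2 ≤ b n then b n ^ x else 0) ≤ X} ⊆ {n | b n ≤ 2 * X ^ (1 / x)} := by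
    intro n hn
    simp only [Set.mem_ofPred_eq] at hn ⊢
    by_cases h : 2 ≤ b n
    · rw [if_pos h] at hn
      have h3 : (b n ^ x) ^ (1 / x) ≤ X ^ (1 / x) :=
        Real.rpow_le_rpow (Real.rpow_nonneg (by linarith) _) hn (by positivity)
      rw [← Real.rpow_mul (by linarith), mul_one_div_cancel hx.ne', Real.rpow_one] at h3
      linarith
    · push Not at h
      linarith
  refine ⟨h1.subset hsub, ?_⟩
  have h3 : ({n | (if 2 ≤ b n then b n ^ x else 0) ≤ X}.ncard : ℝ) ≤ {n | b n ≤ 2 * X ^ (1 / x)}.ncard := by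
    exact_mod_cast Set.ncard_le_ncard hsub h1
  refine h3.trans (h2.trans ?_)
  have h4 : (2 * X ^ (1 / x)) ^ (ρ + ε * x) = 2 ^ (ρ + ε * x) * X ^ (ρ / x + ε) := by
    rw [Real.mul_rpow (by norm_num) (by positivity), ← Real.rpow_mul hX0.le]
    congr 2
    field_simp
  rw [h4, mul_assoc]
  exact mul_le_mul_of_nonneg_right (le_abs_self C) (by positivity)

theorem pow_expand {b a x y : ℝ} (hb : 2 ≤ b) (hx : a ≤ x) (hxy : x ≤ y) :
    Real.log 2 * b ^ a * (y - x) ≤ b ^ y - b ^ x := by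
  have hb0 : 0 < b := by linarith
  have h1 : b ^ y = b ^ x * b ^ (y - x) := by
    rw [← Real.rpow_add hb0]
    ring_nf
  have h2 : 1 + Real.log b * (y - x) ≤ b ^ (y - x) := by
    rw [Real.rpow_def_of_pos hb0]
    have := Real.add_one_le_exp (Real.log b * (y - x))
    linarith
  have h3 : b ^ a ≤ b ^ x := Real.rpow_le_rpow_of_exponent_le (by linarith) hx
  have h4 : Real.log 2 ≤ Real.log b := Real.log_le_log (by norm_num) hb
  have h5 : 0 < Real.log 2 := Real.log_pos (by norm_num)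
  have h6 : 0 ≤ b ^ a := by positivity
  have h7 : 0 ≤ y - x := by linarith
  have h8 : 0 ≤ Real.log b := by linarith
  rw [h1]
  calc Real.log 2 * b ^ a * (y - x) ≤ Real.log b * b ^ x * (y - x) := by gcongr
    _ = b ^ x * (1 + Real.log b * (y - x)) - b ^ x := by ring
    _ ≤ b ^ x * b ^ (y - x) - b ^ x := by gcongr

/-- **Exponents in a short interval.** -/
theorem expo_short {S : Set ℝ} {s ρ κ θ : ℝ} (hs : 0 ≤ s) (hρ : 0 ≤ ρ) (hκ : 0 ≤ κ) (hκθ : κ < θ)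
    (hθ : θ < 1) (hS : ThinR S s) {b : ℕ → ℝ} (hb : Order b ρ) {ξ : ℝ} (hξ : ξ ≠ 0) {a : ℝ} (ha : 0 < a) :
    ∃ Z : Set ℝ, dimH Z ≤ ENNReal.ofReal ((θ * ρ / a + s) / (θ - κ)) ∧ ∀ α ∈ Set.Icc a (a / θ), α ∉ Z → ∀ K : ℝ,
      ∃ N : ℕ, ∀ n : ℕ, N ≤ n → ∀ w ∈ S, ¬ |w - ξ * b n ^ α| ≤ K * (b n ^ α) ^ κ := by
  have hθ0 : 0 < θ := by linarith
  have hlog : 0 < Real.log 2 := Real.log_pos (by norm_num)
  have hfirst : ∀ n, 1 ≤ (if 2 ≤ b n then b n ^ a else (0 : ℝ)) → 2 ≤ b n := by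
    intro n hn
    by_contra h
    rw [if_neg h] at hn
    linarith
  have h := avoid (E := ℝ) (ρ := ρ / a) (κ := κ / θ) (l := 1 / θ) hs (by positivity)
    (by rw [div_lt_one hθ0]; exact hκθ) (by positivity)
    (div_le_div_of_nonneg_right (by linarith) hθ0.le) hS
    (order_pow hρ ha hb) (J := Set.Icc a (a / θ)) (f := fun n α => ξ * b n ^ α) (B := |ξ|)
    (c := |ξ| * Real.log 2) (by positivity)
    (fun n hn x hx y hy => by
      have hbn := hfirst n hn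
      rw [if_pos hbn, Real.dist_eq, ← mul_sub, abs_mul]
      have h1 : Real.log 2 * b n ^ a * |x - y| ≤ |b n ^ x - b n ^ y| := by
        rcases le_total x y with hxy | hxy
        · have h2 := pow_expand hbn hx.1 hxy
          rw [abs_sub_comm x y, abs_of_nonneg (by linarith : 0 ≤ y - x), abs_sub_comm]
          exact h2.trans (le_abs_self _)
        · have h2 := pow_expand hbn hy.1 hxy
          rw [abs_of_nonneg (by linarith : 0 ≤ x - y)]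
          exact h2.trans (le_abs_self _)
      calc |ξ| * Real.log 2 * b n ^ a * |x - y| = |ξ| * (Real.log 2 * b n ^ a * |x - y|) := by ring
        _ ≤ |ξ| * |b n ^ x - b n ^ y| := mul_le_mul_of_nonneg_left h1 (abs_nonneg _))
    (fun n hn x hx => by
      have hbn := hfirst n hn
      rw [if_pos hbn, ← Real.rpow_mul (by linarith)]
      have h1 : b n ^ x ≤ b n ^ (a * (1 / θ)) := by
        apply Real.rpow_le_rpow_of_exponent_le (by linarith)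
        rw [mul_one_div]
        exact hx.2
      have h2 : 0 ≤ b n ^ x := by positivity
      calc ξ * b n ^ x ≤ |ξ| * b n ^ x := mul_le_mul_of_nonneg_right (le_abs_self _) h2
        _ ≤ |ξ| * b n ^ (a * (1 / θ)) := mul_le_mul_of_nonneg_left h1 (abs_nonneg _))
  obtain ⟨Z, hZ1, hZ2⟩ := h
  refine ⟨Z, hZ1.trans (le_of_eq ?_), fun α hα hαZ K => ?_⟩
  · congr 1
    have : θ - κ ≠ 0 := by linarith
    field_simp
  · obtain ⟨N, hN⟩ := hZ2 α hα hαZ |K|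
    obtain ⟨C, hC⟩ := hb 1 one_pos
    obtain ⟨N', hN'⟩ := (hC 2 (by norm_num)).1.bddAbove
    refine ⟨max N (N' + 1), fun n hn w hw hcon => ?_⟩
    have hbn : 2 ≤ b n := by
      by_contra hlt
      push Not at hlt
      have : n ≤ N' := hN' hlt.le
      have := (le_max_right N (N' + 1)).trans hn
      omega
    apply hN n ((le_max_left _ _).trans hn) w hw
    refine hcon.trans ?_
    rw [if_pos hbn, ← Real.rpow_mul (by linarith), ← Real.rpow_mul (by linarith)]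
    have h1 : b n ^ (α * κ) ≤ b n ^ (a * (κ / θ)) := by
      apply Real.rpow_le_rpow_of_exponent_le (by linarith)
      calc α * κ ≤ a / θ * κ := mul_le_mul_of_nonneg_right hα.2 hκ
        _ = a * (κ / θ) := by ring
    have h2 : 0 ≤ b n ^ (α * κ) := by positivity
    calc K * b n ^ (α * κ) ≤ |K| * b n ^ (α * κ) := mul_le_mul_of_nonneg_right (le_abs_self _) h2
      _ ≤ |K| * b n ^ (a * (κ / θ)) := mul_le_mul_of_nonneg_left h1 (abs_nonneg _)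

/-- **Exponents.** -/
theorem expo {S : Set ℝ} {s ρ κ : ℝ} (hs : 0 ≤ s) (hρ : 0 ≤ ρ) (hκ : 0 ≤ κ) (hκ1 : κ < 1)
    (hS : ThinR S s) {b : ℕ → ℝ} (hb : Order b ρ) {ξ : ℝ} (hξ : ξ ≠ 0) {x₀ : ℝ} (hx₀ : 0 < x₀) :
    ∃ Z : Set ℝ, dimH Z ≤ ENNReal.ofReal ((ρ / x₀ + s) / (1 - κ)) ∧ ∀ α : ℝ, x₀ ≤ α → α ∉ Z → ∀ K : ℝ,
      ∃ N : ℕ, ∀ n : ℕ, N ≤ n → ∀ w ∈ S, ¬ |w - ξ * b n ^ α| ≤ K * (b n ^ α) ^ κ := by
  -- the numbers `θ_j`
  have hθ : ∀ j : ℕ, κ < 1 - (1 - κ) * (1 / ((j : ℝ) + 1 + 1)) ∧ 1 - (1 - κ) * (1 / ((j : ℝ) + 1 + 1)) < 1 := by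
    intro j
    have h1 : (0 : ℝ) < (j : ℝ) + 1 + 1 := by positivity
    have h2 : 1 / ((j : ℝ) + 1 + 1) < 1 := by
      rw [div_lt_one h1]
      have : (0 : ℝ) ≤ j := Nat.cast_nonneg j
      linarith
    have h3 : 0 < 1 / ((j : ℝ) + 1 + 1) := by positivity
    constructor <;> nlinarith
  set θ : ℕ → ℝ := fun j => 1 - (1 - κ) * (1 / ((j : ℝ) + 1 + 1)) with hθdef
  have key : ∀ (j : ℕ) (a : ℚ), ∃ Z : Set ℝ, dimH Z ≤ ENNReal.ofReal ((ρ / x₀ + s) / (θ j - κ)) ∧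
      (θ j * x₀ ≤ a → ∀ α ∈ Set.Icc (a : ℝ) (a / θ j), α ∉ Z → ∀ K : ℝ,
      ∃ N : ℕ, ∀ n : ℕ, N ≤ n → ∀ w ∈ S, ¬ |w - ξ * b n ^ α| ≤ K * (b n ^ α) ^ κ) := by
    intro j a
    have hθ0 : 0 < θ j := lt_of_le_of_lt hκ (hθ j).1
    by_cases ha : θ j * x₀ ≤ a
    · have ha0 : 0 < (a : ℝ) := lt_of_lt_of_le (by positivity) ha
      obtain ⟨Z, h1, h2⟩ := expo_short hs hρ hκ (hθ j).1 (hθ j).2 hS hb hξ ha0
      refine ⟨Z, h1.trans (ENNReal.ofReal_le_ofReal ?_), fun _ => h2⟩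
      have h3 : θ j * ρ / a ≤ ρ / x₀ := by
        rw [div_le_div_iff₀ ha0 hx₀]
        nlinarith
      have h4 : 0 < θ j - κ := by linarith [(hθ j).1]
      gcongr
    · refine ⟨∅, ?_, fun h => absurd h ha⟩
      rw [dimH_empty]
      simp
  choose Z hZ1 hZ2 using key
  refine ⟨⋂ j, ⋃ a, Z j a, ?_, fun α hα hαZ K => ?_⟩
  · have hlim : Tendsto (fun j : ℕ => ENNReal.ofReal ((ρ / x₀ + s) / (θ j - κ))) atTop
        (𝓝 (ENNReal.ofReal ((ρ / x₀ + s) / (1 - κ)))) := by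
      apply ENNReal.tendsto_ofReal
      apply Tendsto.div tendsto_const_nhds _ (by linarith)
      apply Tendsto.sub_const
      have h1 : Tendsto (fun j : ℕ => 1 / ((j : ℝ) + 1 + 1)) atTop (𝓝 0) := by
        have h2 := (tendsto_one_div_add_atTop_nhds_zero_nat (𝕜 := ℝ)).comp (tendsto_add_atTop_nat 1)
        refine h2.congr fun j => ?_
        simp only [Function.comp_apply]
        push_cast
        rfl
      have h3 := (h1.const_mul (1 - κ)).const_sub 1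
      rw [mul_zero, sub_zero] at h3
      exact h3
    refine ge_of_tendsto' hlim fun j => ?_
    refine (dimH_mono (Set.iInter_subset _ j)).trans ?_
    rw [dimH_iUnion]
    exact iSup_le fun a => hZ1 j a
  · rw [Set.mem_iInter, not_forall] at hαZ
    obtain ⟨j, hj⟩ := hαZ
    have hθ0 : 0 < θ j := lt_of_le_of_lt hκ (hθ j).1
    have hα0 : 0 < α := lt_of_lt_of_le hx₀ hα
    obtain ⟨a, ha1, ha2⟩ := exists_rat_btwn (show θ j * α < α by nlinarith [(hθ j).2])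
    refine hZ2 j a (le_trans (by gcongr) ha1.le) α ⟨ha2.le, ?_⟩ (fun h => hj (Set.mem_iUnion.2 ⟨a, h⟩)) K
    rw [le_div_iff₀ hθ0]
    linarith

/-- **Powers.** -/
theorem powers {S : Set ℝ} {s κ : ℝ} (hs : 0 ≤ s) (hκ : 0 ≤ κ) (hκ1 : κ < 1)
    (hS : ThinR S s) {ξ : ℝ} (hξ : ξ ≠ 0) :
    ∃ Z : Set ℝ, dimH Z ≤ ENNReal.ofReal (s / (1 - κ)) ∧ ∀ α : ℝ, 1 < α → α ∉ Z → ∀ K : ℝ,
      ∃ N : ℕ, ∀ n : ℕ, N ≤ n → ∀ w ∈ S, ¬ |w - ξ * α ^ n| ≤ K * (α ^ n) ^ κ := by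
  have hord : Order (fun n : ℕ => Real.exp n) 0 := by
    intro ε hε
    refine ⟨1 / ε + 1, fun X hX => ?_⟩
    have hX0 : (0 : ℝ) < X := by linarith
    have hlog : 0 ≤ Real.log X := Real.log_nonneg hX
    have hsub : {n : ℕ | Real.exp n ≤ X} ⊆ (Finset.range (⌊Real.log X⌋₊ + 1) : Set ℕ) := by
      intro n hn
      rw [Finset.coe_range, Set.mem_Iio, Nat.lt_succ_iff]
      apply Nat.le_floor
      rw [Real.le_log_iff_exp_le hX0]
      exact hn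
    refine ⟨(Finset.finite_toSet _).subset hsub, ?_⟩
    have h1 := Set.ncard_le_ncard hsub (Finset.finite_toSet _)
    rw [Set.ncard_coe_finset, Finset.card_range] at h1
    have h2 : (({n : ℕ | Real.exp n ≤ X}.ncard : ℕ) : ℝ) ≤ Real.log X + 1 := by
      have h3 : (({n : ℕ | Real.exp n ≤ X}.ncard : ℕ) : ℝ) ≤ (⌊Real.log X⌋₊ : ℝ) + 1 := by exact_mod_cast h1
      have := Nat.floor_le hlog
      linarith
    have h3 : Real.log X ≤ X ^ ε / ε := Real.log_le_rpow_div hX0.le hε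
    have h4 : 1 ≤ X ^ ε := Real.one_le_rpow hX hε.le
    rw [zero_add]
    calc (({n : ℕ | Real.exp n ≤ X}.ncard : ℕ) : ℝ) ≤ X ^ ε / ε + X ^ ε := by linarith
      _ = (1 / ε + 1) * X ^ ε := by ring
  have key : ∀ k : ℕ, ∃ Z : Set ℝ, dimH Z ≤ ENNReal.ofReal (s / (1 - κ)) ∧ ∀ α : ℝ, 1 / ((k : ℝ) + 1) ≤ α →
      α ∉ Z → ∀ K : ℝ, ∃ N : ℕ, ∀ n : ℕ, N ≤ n → ∀ w ∈ S,
        ¬ |w - ξ * Real.exp n ^ α| ≤ K * (Real.exp n ^ α) ^ κ := by
    intro k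
    obtain ⟨Z, h1, h2⟩ := expo hs le_rfl hκ hκ1 hS hord hξ (x₀ := 1 / ((k : ℝ) + 1)) (by positivity)
    refine ⟨Z, ?_, h2⟩
    rwa [zero_div, zero_add] at h1
  choose Z hZ1 hZ2 using key
  refine ⟨Real.exp '' ⋃ k, Z k, ?_, fun α hα hαZ K => ?_⟩
  · have h1 : dimH (Real.exp '' ⋃ k, Z k) ≤ dimH (⋃ k, Z k) :=
      (Real.contDiff_exp.contDiffOn (s := Set.univ) (n := 1)).dimH_image_le convex_univ (Set.subset_univ _)
    refine h1.trans ?_
    rw [dimH_iUnion]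
    exact iSup_le hZ1
  · have hα0 : 0 < α := by linarith
    have hlog : 0 < Real.log α := Real.log_pos hα
    obtain ⟨k, hk⟩ := exists_nat_one_div_lt hlog
    have h1 : Real.log α ∉ Z k := by
      intro h
      apply hαZ
      exact ⟨Real.log α, Set.mem_iUnion.2 ⟨k, h⟩, Real.exp_log hα0⟩
    obtain ⟨N, hN⟩ := hZ2 k (Real.log α) hk.le h1 K
    refine ⟨N, fun n hn w hw => ?_⟩
    have h2 := hN n hn w hw
    have h3 : Real.exp n ^ Real.log α = α ^ n := by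
      rw [← Real.exp_mul, mul_comm, Real.exp_mul, Real.exp_log hα0, Real.rpow_natCast]
    rwa [h3] at h2

end Pool.Agent.N891.GM
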