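import Pool.Agent.N891.GM.Fam

/-!
# The predicate `Generic` for the pages (helper891)
-/

set_option autoImplicit false

namespace Pool.Agent.N891.GM

open Finset Classical Filter Topology

/-- The real sequence `a` is of order at most `ρ`: for every `ε > 0` the number of the `n` with `|a_n| ≤ X` is at
most `C X ^ (ρ + ε)` for all `X ≥ 1` and some `C`. For example `n!` and `q ^ n`, `q > 1`, are of order `0`, and `n ^ t`
is of order `1 / t`. -/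
def OfOrder (a : ℕ → ℝ) (ρ : ℝ) : Prop :=
  ∀ ε : ℝ, 0 < ε → ∃ C : ℝ, ∀ X : ℝ, 1 ≤ X →
    {n | |a n| ≤ X}.Finite ∧ ({n | |a n| ≤ X}.ncard : ℝ) ≤ C * X ^ (ρ + ε)

/-- Let `P x y` be a property of real numbers `x`, `y`, meant as `everything within y of x is good`. It holds
generically with the exponents `s` and `κ` if the following holds.
* For every sequence `a` of order at most `ρ`, all real `α` outside a set of Hausdorff dimension at most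
  `(s + ρ) / (1 - κ)` and all `K`, `P (a_n α) (K |a_n| ^ κ)` for all large `n`.
* For every `ξ ≠ 0`, all `α > 1` outside a set of Hausdorff dimension at most `s / (1 - κ)` and all `K`,
  `P (ξ α ^ n) (K α ^ (κ n))` for all large `n`.
* For every `ξ ≠ 0`, `x₀ > 0` and every sequence `b` of positive numbers of order at most `ρ`, all `α ≥ x₀` outside a
  set of Hausdorff dimension at most `(s + ρ / x₀) / (1 - κ)` and all `K`, `P (ξ b_n ^ α) (K b_n ^ (κ α))` for all large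
  `n`. -/
structure Generic (s κ : ℝ) (P : ℝ → ℝ → Prop) : Prop where
  multiples : ∀ (a : ℕ → ℝ) (ρ : ℝ), 0 ≤ ρ → OfOrder a ρ → ∃ Z : Set ℝ,
    dimH Z ≤ ENNReal.ofReal ((s + ρ) / (1 - κ)) ∧ ∀ α : ℝ, α ∉ Z → ∀ K : ℝ, ∃ N : ℕ, ∀ n : ℕ, N ≤ n →
      P (a n * α) (K * |a n| ^ κ)
  powers : ∀ ξ : ℝ, ξ ≠ 0 → ∃ Z : Set ℝ, dimH Z ≤ ENNReal.ofReal (s / (1 - κ)) ∧
    ∀ α : ℝ, 1 < α → α ∉ Z → ∀ K : ℝ, ∃ N : ℕ, ∀ n : ℕ, N ≤ n → P (ξ * α ^ n) (K * (α ^ n) ^ κ)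
  exponents : ∀ (ξ : ℝ) (b : ℕ → ℝ) (ρ x₀ : ℝ), ξ ≠ 0 → 0 ≤ ρ → 0 < x₀ → (∀ n, 0 < b n) → OfOrder b ρ →
    ∃ Z : Set ℝ, dimH Z ≤ ENNReal.ofReal ((s + ρ / x₀) / (1 - κ)) ∧ ∀ α : ℝ, x₀ ≤ α → α ∉ Z → ∀ K : ℝ,
      ∃ N : ℕ, ∀ n : ℕ, N ≤ n → P (ξ * b n ^ α) (K * (b n ^ α) ^ κ)

/-- the bad objects are thin: the good ones are generic -/
theorem generic {T : Type*} (Adm Good : T → Prop) (h : T → ℝ) {s κ : ℝ} (hs : 0 ≤ s) (hκ : 0 ≤ κ) (hκ1 : κ < 1)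
    (hS : ∀ ε : ℝ, 0 < ε → ∃ C : ℝ, ∀ X : ℝ, 1 ≤ X →
      {t | (Adm t ∧ ¬ Good t) ∧ h t ≤ X}.Finite ∧ ({t | (Adm t ∧ ¬ Good t) ∧ h t ≤ X}.ncard : ℝ) ≤ C * X ^ (s + ε)) :
    Generic s κ fun x y => ∀ t, Adm t → |h t - x| ≤ y → Good t := by
  have hT : ThinR (h '' {t | Adm t ∧ ¬ Good t}) s := thin_image (S := {t | Adm t ∧ ¬ Good t}) hS
  have hfin : ∀ x y : ℝ, (∀ w ∈ h '' {t | Adm t ∧ ¬ Good t}, ¬ |w - x| ≤ y) →
      ∀ t, Adm t → |h t - x| ≤ y → Good t := by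
    intro x y h1 t ht h2
    by_contra hcon
    exact h1 (h t) ⟨t, ⟨ht, hcon⟩, rfl⟩ h2
  refine ⟨fun a ρ hρ ha => ?_, fun ξ hξ => ?_, fun ξ b ρ x₀ hξ hρ hx₀ hb0 hb => ?_⟩
  · obtain ⟨Z, hZ1, hZ2⟩ := mult hs hρ hκ1 hT (a := a) ha
    rw [add_comm] at hZ1
    refine ⟨Z, hZ1, fun α hα K => ?_⟩
    obtain ⟨N, hN⟩ := hZ2 α hα K
    exact ⟨N, fun n hn => hfin _ _ (hN n hn)⟩
  · obtain ⟨Z, hZ1, hZ2⟩ := powers hs hκ hκ1 hT hξ
    refine ⟨Z, hZ1, fun α hα hαZ K => ?_⟩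
    obtain ⟨N, hN⟩ := hZ2 α hα hαZ K
    exact ⟨N, fun n hn => hfin _ _ (hN n hn)⟩
  · have hb' : Order b ρ := by
      intro ε hε
      obtain ⟨C, hC⟩ := hb ε hε
      refine ⟨C, fun X hX => ?_⟩
      have e : {n | |b n| ≤ X} = {n | b n ≤ X} := by
        ext n
        simp only [Set.mem_ofPred_eq]
        rw [abs_of_pos (hb0 n)]
      rw [← e]
      exact hC X hX
    obtain ⟨Z, hZ1, hZ2⟩ := expo hs hρ hκ hκ1 hT hb' hξ hx₀
    rw [add_comm] at hZ1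
    refine ⟨Z, hZ1, fun α hα hαZ K => ?_⟩
    obtain ⟨N, hN⟩ := hZ2 α hα hαZ K
    exact ⟨N, fun n hn => hfin _ _ (hN n hn)⟩

/-- the same for positive integers `t`, all `t = 0` good or not admissible -/
theorem generic_nat (Adm Good : ℕ → Prop) {s κ : ℝ} (hs : 0 ≤ s) (hκ : 0 ≤ κ) (hκ1 : κ < 1)
    (hP : ∀ ε : ℝ, 0 < ε → ∃ C : ℝ, ∀ X : ℕ, 1 ≤ X →
      ({t : ℕ | 1 ≤ t ∧ t ≤ X ∧ Adm t ∧ ¬ Good t}.ncard : ℝ) ≤ C * (X : ℝ) ^ (s + ε)) :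
    Generic s κ fun x y => ∀ t : ℕ, 1 ≤ t → Adm t → |(t : ℝ) - x| ≤ y → Good t := by
  have h := generic (T := ℕ) (fun t => 1 ≤ t ∧ Adm t) Good (fun t => (t : ℝ)) hs hκ hκ1 (fun ε hε => by
    obtain ⟨C, hC⟩ := hP ε hε
    refine ⟨|C|, fun X hX => ?_⟩
    have hX1 : 1 ≤ ⌊X⌋₊ := Nat.le_floor (by exact_mod_cast hX)
    have hXf : (⌊X⌋₊ : ℝ) ≤ X := Nat.floor_le (by linarith)
    have hsub : {t : ℕ | ((1 ≤ t ∧ Adm t) ∧ ¬ Good t) ∧ (t : ℝ) ≤ X} =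
        {t : ℕ | 1 ≤ t ∧ t ≤ ⌊X⌋₊ ∧ Adm t ∧ ¬ Good t} := by
      ext t
      simp only [Set.mem_ofPred_eq]
      constructor
      · rintro ⟨⟨⟨h1, h2⟩, h3⟩, h4⟩
        exact ⟨h1, Nat.le_floor h4, h2, h3⟩
      · rintro ⟨h1, h4, h2, h3⟩
        exact ⟨⟨⟨h1, h2⟩, h3⟩, le_trans (by exact_mod_cast h4) hXf⟩
    rw [hsub]
    refine ⟨(Set.finite_Iic ⌊X⌋₊).subset fun t ht => ht.2.1, ?_⟩
    refine (hC _ hX1).trans ?_
    calc C * (⌊X⌋₊ : ℝ) ^ (s + ε) ≤ |C| * (⌊X⌋₊ : ℝ) ^ (s + ε) :=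
          mul_le_mul_of_nonneg_right (le_abs_self C) (by positivity)
      _ ≤ |C| * X ^ (s + ε) := by gcongr)
  have e : (fun x y : ℝ => ∀ t : ℕ, 1 ≤ t ∧ Adm t → |(t : ℝ) - x| ≤ y → Good t) =
      fun x y => ∀ t : ℕ, 1 ≤ t → Adm t → |(t : ℝ) - x| ≤ y → Good t := by
    funext x y
    apply propext
    exact ⟨fun h1 t ht hA h2 => h1 t ⟨ht, hA⟩ h2, fun h1 t ht h2 => h1 t ht.1 ht.2 h2⟩
  rw [e] at h
  exact h

theorem Generic.mono {s κ : ℝ} {P Q : ℝ → ℝ → Prop} (h : Generic s κ P) (hPQ : ∀ x y, P x y → Q x y) :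
    Generic s κ Q := by
  refine ⟨fun a ρ hρ ha => ?_, fun ξ hξ => ?_, fun ξ b ρ x₀ hξ hρ hx₀ hb0 hb => ?_⟩
  · obtain ⟨Z, h1, h2⟩ := h.multiples a ρ hρ ha
    refine ⟨Z, h1, fun α hα K => ?_⟩
    obtain ⟨N, hN⟩ := h2 α hα K
    exact ⟨N, fun n hn => hPQ _ _ (hN n hn)⟩
  · obtain ⟨Z, h1, h2⟩ := h.powers ξ hξ
    refine ⟨Z, h1, fun α hα hαZ K => ?_⟩
    obtain ⟨N, hN⟩ := h2 α hα hαZ K
    exact ⟨N, fun n hn => hPQ _ _ (hN n hn)⟩
  · obtain ⟨Z, h1, h2⟩ := h.exponents ξ b ρ x₀ hξ hρ hx₀ hb0 hb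
    refine ⟨Z, h1, fun α hα hαZ K => ?_⟩
    obtain ⟨N, hN⟩ := h2 α hα hαZ K
    exact ⟨N, fun n hn => hPQ _ _ (hN n hn)⟩

/-! ### Examples of sequences -/

theorem ofOrder_pow {q : ℝ} (hq : 1 < q) : OfOrder (fun n => q ^ n) 0 := by
  intro ε hε
  have hlq : 0 < Real.log q := Real.log_pos hq
  refine ⟨1 / (ε * Real.log q) + 1, fun X hX => ?_⟩
  have hX0 : (0 : ℝ) < X := by linarith
  have hlog : 0 ≤ Real.log X / Real.log q := div_nonneg (Real.log_nonneg hX) hlq.le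
  have hsub : {n : ℕ | |q ^ n| ≤ X} ⊆ (Finset.range (⌊Real.log X / Real.log q⌋₊ + 1) : Set ℕ) := by
    intro n hn
    rw [Finset.coe_range, Set.mem_Iio, Nat.lt_succ_iff]
    apply Nat.le_floor
    rw [le_div_iff₀ hlq, ← Real.log_pow]
    rw [Set.mem_ofPred_eq, abs_of_pos (by positivity)] at hn
    exact Real.log_le_log (by positivity) hn
  refine ⟨(Finset.finite_toSet _).subset hsub, ?_⟩
  have h1 := Set.ncard_le_ncard hsub (Finset.finite_toSet _)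
  rw [Set.ncard_coe_finset, Finset.card_range] at h1
  have h2 : (({n : ℕ | |q ^ n| ≤ X}.ncard : ℕ) : ℝ) ≤ Real.log X / Real.log q + 1 := by
    have h3 : (({n : ℕ | |q ^ n| ≤ X}.ncard : ℕ) : ℝ) ≤ (⌊Real.log X / Real.log q⌋₊ : ℝ) + 1 := by
      exact_mod_cast h1
    have := Nat.floor_le hlog
    linarith
  have h3 : Real.log X ≤ X ^ ε / ε := Real.log_le_rpow_div hX0.le hε
  have h4 : 1 ≤ X ^ ε := Real.one_le_rpow hX hε.le
  rw [zero_add]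
  calc (({n : ℕ | |q ^ n| ≤ X}.ncard : ℕ) : ℝ) ≤ Real.log X / Real.log q + 1 := h2
    _ ≤ X ^ ε / ε / Real.log q + X ^ ε := by gcongr
    _ = (1 / (ε * Real.log q) + 1) * X ^ ε := by
        field_simp

theorem OfOrder.of_le {a b : ℕ → ℝ} {ρ : ℝ} (ha : OfOrder a ρ) {c : ℝ} (hc : 0 < c)
    (h : ∀ n, c * |a n| ≤ |b n|) : OfOrder b ρ := by
  intro ε hε
  obtain ⟨C, hC⟩ := ha ε hε
  refine ⟨|C| * (1 / c + 1) ^ (ρ + ε), fun X hX => ?_⟩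
  have h1 : 1 ≤ (1 / c + 1) * X := one_le_mul_of_one_le_of_one_le (by
    have : 0 < 1 / c := by positivity
    linarith) hX
  obtain ⟨f1, n1⟩ := hC _ h1
  have hsub : {n | |b n| ≤ X} ⊆ {n | |a n| ≤ (1 / c + 1) * X} := by
    intro n hn
    simp only [Set.mem_ofPred_eq] at hn ⊢
    have h2 : |a n| ≤ X / c := by
      rw [le_div_iff₀ hc]
      linarith [h n]
    have h3 : X / c = 1 / c * X := by ring
    rw [h3] at h2
    nlinarith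
  refine ⟨f1.subset hsub, ?_⟩
  have h4 : ({n | |b n| ≤ X}.ncard : ℝ) ≤ {n | |a n| ≤ (1 / c + 1) * X}.ncard := by
    exact_mod_cast Set.ncard_le_ncard hsub f1
  refine h4.trans (n1.trans ?_)
  rw [Real.mul_rpow (by positivity) (by linarith), ← mul_assoc]
  apply mul_le_mul_of_nonneg_right _ (by positivity)
  exact mul_le_mul_of_nonneg_right (le_abs_self C) (by positivity)

theorem ofOrder_factorial : OfOrder (fun n => (n.factorial : ℝ)) 0 := by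
  refine (ofOrder_pow (q := 2) (by norm_num)).of_le (c := 1 / 2) (by norm_num) fun n => ?_
  rw [abs_of_pos (by positivity), abs_of_nonneg (by positivity)]
  have h : 2 ^ n ≤ 2 * n.factorial := by
    induction n with
    | zero => simp
    | succ n ih =>
      rw [pow_succ, Nat.factorial_succ]
      rcases Nat.eq_zero_or_pos n with h0 | h0
      · subst h0
        simp
      · have : 2 * n.factorial * 2 ≤ 2 * ((n + 1) * n.factorial) := by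
          have h2 : 2 ≤ n + 1 := by omega
          nlinarith [Nat.mul_le_mul_right n.factorial h2]
        exact (Nat.mul_le_mul_right 2 ih).trans this
  have h1 : (2 : ℝ) ^ n ≤ 2 * n.factorial := by exact_mod_cast h
  linarith

theorem ofOrder_rpow {t : ℝ} (ht : 0 < t) : OfOrder (fun n => (n : ℝ) ^ t) (1 / t) := by
  intro ε hε
  refine ⟨2, fun X hX => ?_⟩
  have hX0 : (0 : ℝ) < X := by linarith
  have hXt : 1 ≤ X ^ (1 / t) := Real.one_le_rpow hX (by positivity)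
  have hsub : {n : ℕ | |(n : ℝ) ^ t| ≤ X} ⊆ (Finset.range (⌊X ^ (1 / t)⌋₊ + 1) : Set ℕ) := by
    intro n hn
    rw [Finset.coe_range, Set.mem_Iio, Nat.lt_succ_iff]
    apply Nat.le_floor
    rw [Set.mem_ofPred_eq, abs_of_nonneg (by positivity)] at hn
    have h3 : ((n : ℝ) ^ t) ^ (1 / t) ≤ X ^ (1 / t) := Real.rpow_le_rpow (by positivity) hn (by positivity)
    rwa [← Real.rpow_mul (Nat.cast_nonneg n), mul_one_div_cancel ht.ne', Real.rpow_one] at h3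
  refine ⟨(Finset.finite_toSet _).subset hsub, ?_⟩
  have h1 := Set.ncard_le_ncard hsub (Finset.finite_toSet _)
  rw [Set.ncard_coe_finset, Finset.card_range] at h1
  have h2 : (({n : ℕ | |(n : ℝ) ^ t| ≤ X}.ncard : ℕ) : ℝ) ≤ (⌊X ^ (1 / t)⌋₊ : ℝ) + 1 := by exact_mod_cast h1
  have h3 := Nat.floor_le (by positivity : 0 ≤ X ^ (1 / t))
  have h4 : X ^ (1 / t) ≤ X ^ (1 / t + ε) := Real.rpow_le_rpow_of_exponent_le hX (by linarith)
  linarith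

/-- `n!` and `q ^ n` (`q > 1`) are of order `0`, `n ^ t` is of order `1 / t` -/
theorem examples : OfOrder (fun n => (n.factorial : ℝ)) 0 ∧ (∀ q : ℝ, 1 < q → OfOrder (fun n => q ^ n) 0) ∧
    ∀ t : ℝ, 0 < t → OfOrder (fun n => (n : ℝ) ^ t) (1 / t) :=
  ⟨ofOrder_factorial, fun _ hq => ofOrder_pow hq, fun _ ht => ofOrder_rpow ht⟩

end Pool.Agent.N891.GM
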